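import Pool.Agent.H310.Dist.Asy2

set_option autoImplicit false

/-!
The distortion `d(r) = sup ‖Dh(z)‖` of the Carathéodory family of the ball (second question of the
problem): two-sided bounds, and the exact order of growth `(1 - r)^(-5/2)` at the boundary, with
constants that differ by less than 17 per cent.
-/

namespace Pool.Agent.Results.MP_ea326e_an.DistortionOrder

open Metric Set Filter Topology
open Pool.Agent.Results.MP_ea326e_an.AllHilbertSpaces (caratheodory growth)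
open Pool.Agent.H310.Dist (distortionSet distortion)

universe u

/-- In every complex inner product space of dimension at least two (in particular in `ℂⁿ`, `n ≥ 2`)
the distortion `d(r) = sup ‖Dh(z)‖` (`h` in the Carathéodory family, `‖z‖ = r`) is finite, obeys
explicit lower bounds, obeys two upper bounds in terms of the growth function `m` (whose exact value
is known), and satisfies `25 √10 / 54 ≤ liminf (1 - r)^(5/2) d(r)` and
`limsup (1 - r)^(5/2) d(r) ≤ 32 / 49 + 3 √6 / 7` as `r` tends to `1`. -/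
theorem result (E : Type u) [NormedAddCommGroup E] [InnerProductSpace ℂ E]
    (hE : 2 ≤ Module.rank ℂ E) :
    (∀ r ∈ Ioo (0 : ℝ) 1, (distortionSet E r).Nonempty ∧ BddAbove (distortionSet E r)) ∧
    (∀ r ∈ Ioo (0 : ℝ) 1, ∀ b ∈ Ico (0 : ℝ) 1,
      √(((1 + 2 * b * r - b ^ 2 * r ^ 2) / (1 - b * r) ^ 2) ^ 2 +
        (4 * √(1 - b ^ 2) * r / (1 - b * r) ^ 3) ^ 2) ≤ distortion E r) ∧
    (∀ r ∈ Ioo (0 : ℝ) 1,
      100 * r * √(9 + r) / ((5 + r) ^ 3 * (1 - r) ^ (5 / 2 : ℝ)) ≤ distortion E r) ∧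
    (∀ r ∈ Ioo (0 : ℝ) 1, ∀ δ > 0, r + δ < 1 → distortion E r ≤ growth E (r + δ) / δ) ∧
    (∀ r ∈ Ioo (0 : ℝ) 1, (1 - r) ^ (5 / 2 : ℝ) * distortion E r ≤
      4096 * r ^ 2 * (7 + r) / (49 * √(15 + r) * (7 + 9 * r) ^ 2) +
        2 * (7 + r) ^ 2 / (7 * r * (7 + 9 * r)) * ((1 - r) ^ (3 / 2 : ℝ) * growth E r) +
        18 * √(1 - r) +
        4 * √2 * √(1 - r) / √(1 + 3 * r) *
          ((1 - (1 + r) / 2) ^ (3 / 2 : ℝ) * growth E ((1 + r) / 2))) ∧
    ∀ ε > 0, ∀ᶠ r : ℝ in 𝓝[<] 1,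
      25 * √10 / 54 - ε ≤ (1 - r) ^ (5 / 2 : ℝ) * distortion E r ∧
        (1 - r) ^ (5 / 2 : ℝ) * distortion E r ≤ 32 / 49 + 3 * √6 / 7 + ε :=
  ⟨fun _ hr => ⟨Pool.Agent.H310.Dist.nonempty hE hr, Pool.Agent.H310.Dist.bddAbove hE hr⟩,
    fun _ hr _ hb => Pool.Agent.H310.Dist.lower hE hr hb,
    fun _ hr => Pool.Agent.H310.Dist.lower_explicit hE hr,
    fun _ hr _ hδ h => Pool.Agent.H310.Dist.upper hE hr hδ h,
    fun _ hr => Pool.Agent.H310.Dist.upper_explicit hE hr,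
    fun _ hε => Pool.Agent.H310.Dist.asymptotic2 hE hε⟩

end Pool.Agent.Results.MP_ea326e_an.DistortionOrder
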